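import Mathlib

namespace Pool.Agent.H.MP_5651c1_co

open Finset

variable {V : Type} (G : SimpleGraph V)

def Mi (t : ℕ) (W : Set V) : Prop :=
  ∃ f : Fin t → Set V, (∀ i, f i ⊆ W) ∧ (∀ i, (G.induce (f i)).Connected) ∧
    (∀ i j, i ≠ j → Disjoint (f i) (f j)) ∧ ∀ i j, i ≠ j → ∃ u ∈ f i, ∃ v ∈ f j, G.Adj u v

variable [DecidableRel G.Adj] [DecidableEq V]

def dg (W : Finset V) (v : V) : ℕ := (W.filter (G.Adj v)).card

def e2 (W : Finset V) : ℕ := ∑ v ∈ W, dg G W v

theorem e2_erase {W : Finset V} {v : V} (hv : v ∈ W) :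
    e2 G W = e2 G (W.erase v) + 2 * dg G W v := by
  have h1 : ∀ u, dg G W u = dg G (W.erase v) u + if G.Adj v u then 1 else 0 := by
    intro u
    unfold dg
    rw [card_filter, card_filter, ← add_sum_erase _ _ hv, add_comm]
    simp only [G.adj_comm u v]
  have h2 : ∑ u ∈ W.erase v, (if G.Adj v u then 1 else 0) = dg G W v := by
    unfold dg
    rw [card_filter, ← add_sum_erase _ _ hv]
    simp
  unfold e2
  rw [← add_sum_erase _ _ hv, sum_congr rfl fun u _ => h1 u, sum_add_distrib, h2]
  ring

theorem mader (t : ℕ) : ∀ W : Finset V, W.Nonempty → 2 * 2 ^ t * W.card ≤ e2 G W → Mi G t W := by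
  induction t with
  | zero => intro W _ _; exact ⟨Fin.elim0, by simp, by simp, by simp, by simp⟩
  | succ t iht =>
    intro W
    induction W using Finset.strongInduction with
    | H W ih =>
      classical
      intro hW he
      let N : Finset V → Finset V := fun U => (W \ U).filter fun x => ∃ u ∈ U, G.Adj u x
      let P : Finset V → Prop := fun U => (G.induce (U : Set V)).Connected ∧
        2 * 2 ^ (t + 1) * ((W \ U).card + 1) ≤ e2 G (W \ U) + 2 * (N U).card
      obtain ⟨v0, hv0⟩ := hW
      have h0 : P {v0} := by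
        refine ⟨?_, ?_⟩
        · rw [coe_singleton]
          exact @SimpleGraph.Connected.of_subsingleton _ _ ⟨⟨v0, rfl⟩⟩ _
        · have : N {v0} = W.filter (G.Adj v0) := by
            ext x
            simp only [N, mem_filter, mem_sdiff, mem_singleton, exists_eq_left]
            exact ⟨fun h => ⟨h.1.1, h.2⟩, fun h => ⟨⟨h.1, h.2.ne'⟩, h.2⟩⟩
          rw [this, sdiff_singleton_eq_erase, card_erase_add_one hv0]
          exact he.trans (e2_erase G hv0).le
      obtain ⟨U, hU, hmax⟩ := exists_max_image (W.powerset.filter P) card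
        ⟨{v0}, mem_filter.mpr ⟨by simpa using hv0, h0⟩⟩
      obtain ⟨hUW, hc, hP⟩ := mem_filter.mp hU
      rw [mem_powerset] at hUW
      obtain ⟨u0, hu0⟩ := hc.nonempty
      have p2 : 0 < 2 ^ (t + 1) := by positivity
      rcases (N U).eq_empty_or_nonempty with hN | hN
      · rw [hN, card_empty] at hP
        have hne : (W \ U).Nonempty := by
          rw [nonempty_iff_ne_empty]
          intro h
          rw [h] at hP
          simp [e2] at hP
        obtain ⟨f, h1, h2⟩ := ih (W \ U) (sdiff_ssubset hUW ⟨u0, hu0⟩) hne (by nlinarith)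
        exact ⟨f, fun i => (h1 i).trans (coe_subset.mpr sdiff_subset), h2⟩
      have hdeg : ∀ v ∈ N U, 2 ^ (t + 1) ≤ dg G (N U) v := by
        intro v hv
        obtain ⟨hvX, u, hu, huv⟩ := mem_filter.mp hv
        obtain ⟨hvW, hvU⟩ := mem_sdiff.mp hvX
        have hn : ¬ P (insert v U) := by
          intro h
          have := hmax _ (mem_filter.mpr ⟨mem_powerset.mpr (insert_subset hvW hUW), h⟩)
          rw [card_insert_of_notMem hvU] at this
          omega
        have hc' : (G.induce ((insert v U : Finset V) : Set V)).Connected := by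
          rw [coe_insert, Set.insert_eq, Set.union_comm]
          exact SimpleGraph.connected_induce_union hc.preconnected
            (SimpleGraph.Preconnected.of_subsingleton) hu rfl huv
        have h1 : e2 G (W \ insert v U) + 2 * (N (insert v U)).card <
            2 * 2 ^ (t + 1) * ((W \ insert v U).card + 1) := not_le.mp fun h => hn ⟨hc', h⟩
        have hs : (N U).erase v ∪ (W \ U).filter (G.Adj v) ⊆ N (insert v U) := by
          intro x hx
          simp only [N, mem_union, mem_erase, mem_filter, mem_sdiff, mem_insert] at hx ⊢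
          rcases hx with ⟨a, ⟨b, c⟩, y, d, e⟩ | ⟨⟨b, c⟩, d⟩
          · exact ⟨⟨b, by tauto⟩, y, Or.inr d, e⟩
          · exact ⟨⟨b, by have := d.ne'; tauto⟩, v, Or.inl rfl, d⟩
        have hi : (N U).erase v ∩ (W \ U).filter (G.Adj v) ⊆ (N U).filter (G.Adj v) := by
          intro x hx
          simp only [mem_inter, mem_erase, mem_filter] at hx ⊢
          exact ⟨hx.1.2, hx.2.2⟩
        have a1 := card_le_card hs
        have a2 := card_le_card hi
        have a3 := card_union_add_card_inter ((N U).erase v) ((W \ U).filter (G.Adj v))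
        have a4 := card_erase_add_one hv
        have a5 := e2_erase G hvX
        rw [sdiff_insert, card_erase_add_one hvX] at h1
        unfold dg at a5 ⊢
        rw [mul_add] at hP
        omega
      obtain ⟨f, h1, h2, h3, h4⟩ := iht (N U) hN (by
        have := card_nsmul_le_sum (N U) _ _ hdeg
        rw [smul_eq_mul, pow_succ] at this
        unfold e2
        linarith)
      have hx : ∀ i, ∀ x ∈ f i, (x ∈ W ∧ x ∉ U) ∧ ∃ u ∈ U, G.Adj u x := fun i x hx => by
        have := mem_filter.mp (h1 i hx)
        exact ⟨mem_sdiff.mp this.1, this.2⟩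
      have hd : ∀ i, Disjoint (U : Set V) (f i) := fun i =>
        Set.disjoint_right.mpr fun x h => (hx i x h).1.2
      have ha : ∀ i, ∃ u ∈ (U : Set V), ∃ v ∈ f i, G.Adj u v := fun i => by
        obtain ⟨x, h⟩ := (h2 i).nonempty
        obtain ⟨u, a, b⟩ := (hx i x h).2
        exact ⟨u, a, x, h, b⟩
      refine ⟨Fin.cons U f, fun i => ?_, fun i => ?_, fun i j => ?_, fun i j => ?_⟩
      · refine Fin.cases (coe_subset.mpr hUW) (fun i x h => (hx i x h).1.1) i
      · exact Fin.cases hc h2 i
      · refine Fin.cases (Fin.cases (fun h => absurd rfl h) (fun j _ => hd j) j)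
          (fun i => Fin.cases (fun _ => (hd i).symm) (fun j h => h3 i j fun e => h (by rw [e])) j) i
      · refine Fin.cases (Fin.cases (fun h => absurd rfl h) (fun j _ => ha j) j)
          (fun i => Fin.cases (fun _ => ?_) (fun j h => h4 i j fun e => h (by rw [e])) j) i
        obtain ⟨u, a, v, b, c⟩ := ha i
        exact ⟨v, b, u, a, c.symm⟩

omit [DecidableRel G.Adj] in
theorem round {t : ℕ} (a : Fin t → V) (s : Sym2 (Fin t) → V)
    (w : ∀ i j, G.Walk (a i) (s s(i, j)))
    (hw : ∀ i j k l, i ≠ k → s(i, j) ≠ s(k, l) → ∀ x ∈ (w i j).support, x ∉ (w k l).support) :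
    Mi G t Set.univ := by
  let R : Fin t → Set V := fun k =>
    {x | (∃ j, x ∈ (w k j).support) ∧ ∀ j, j < k → x ∉ (w j k).support}
  let B : Fin t → Set V := fun k => {x | ∃ q : G.Walk (a k) x, ∀ y ∈ q.support, y ∈ R k}
  have BR : ∀ k, B k ⊆ R k := fun k x ⟨q, hq⟩ => hq x q.end_mem_support
  have a0 : ∀ k, a k ∈ B k := fun k => ⟨.nil, fun y hy => by
    obtain rfl : y = a k := by simpa using hy
    refine ⟨⟨k, (w k k).start_mem_support⟩, fun j hj h => hw j k k k hj.ne ?_ _ h
      (w k k).start_mem_support⟩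
    simp [hj.ne]⟩
  have sub : ∀ k x (q : G.Walk (a k) x), (∀ y ∈ q.support, y ∈ R k) → ∀ y ∈ q.support, y ∈ B k :=
    fun k x q hq y hy => ⟨q.takeUntil y hy, fun z hz =>
      hq z (q.support_takeUntil_subset_support hy hz)⟩
  have dis : ∀ i k, i < k → Disjoint (B i) (B k) := by
    intro i k hik
    refine Set.disjoint_left.mpr fun x h1 h2 => ?_
    obtain ⟨⟨j, hj⟩, -⟩ := BR i h1
    obtain ⟨⟨l, hl⟩, h4⟩ := BR k h2
    by_cases e : s(i, j) = s(k, l)
    · obtain rfl : j = k := by
        rcases Sym2.eq_iff.mp e with h | h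
        · exact absurd h.1 hik.ne
        · exact h.2
      exact h4 i hik hj
    · exact hw i j k l hik.ne e x hj hl
  have adj : ∀ i k, i < k → ∃ u ∈ B i, ∃ v ∈ B k, G.Adj u v := by
    intro i k hik
    have full : ∀ y ∈ (w i k).support, y ∈ B i := sub i _ (w i k) fun y hy =>
      ⟨⟨k, hy⟩, fun j hj h => hw j i i k hj.ne (by
        intro e
        rcases Sym2.eq_iff.mp e with h | h
        · exact hj.ne h.1
        · exact (hj.trans hik).ne h.1) y h hy⟩
    obtain ⟨d, hd, h1, h2⟩ := (w k i).exists_boundary_dart (B k) (a0 k) (fun h =>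
      (BR k h).2 i hik (by
        have e : s s(k, i) = s s(i, k) := by rw [Sym2.eq_swap]
        rw [e]
        exact (w i k).end_mem_support))
    have h3 := (w k i).dart_snd_mem_support_of_mem_darts hd
    have h4 : d.snd ∉ R k := by
      intro h
      obtain ⟨q, hq⟩ := h1
      refine h2 ⟨q.concat d.adj, fun y hy => ?_⟩
      rw [SimpleGraph.Walk.support_concat, List.mem_append, List.mem_singleton] at hy
      rcases hy with hy | rfl
      · exact hq y hy
      · exact h
    have h5 : ∃ j, j < k ∧ d.snd ∈ (w j k).support := by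
      by_contra h
      push Not at h
      exact h4 ⟨⟨i, h3⟩, h⟩
    obtain ⟨j, hj, h6⟩ := h5
    obtain rfl : j = i := by
      by_contra h
      refine hw j k k i hj.ne ?_ _ h6 h3
      intro e
      rcases Sym2.eq_iff.mp e with h' | h'
      · exact hj.ne h'.1
      · exact h h'.1
    exact ⟨d.snd, full _ h6, d.fst, h1, d.adj.symm⟩
  refine ⟨B, fun _ => Set.subset_univ _, fun k => ?_, fun i j h => ?_, fun i j h => ?_⟩
  · refine G.induce_connected_of_patches (a k) (a0 k) ?_
    rintro v ⟨q, hq⟩
    exact ⟨{y | y ∈ q.support}, sub k v q hq, q.start_mem_support, q.end_mem_support,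
      q.connected_induce_support _ _⟩
  · rcases lt_or_gt_of_ne h with h | h
    · exact dis i j h
    · exact (dis j i h).symm
  · rcases lt_or_gt_of_ne h with h | h
    · exact adj i j h
    · obtain ⟨u, a, v, b, c⟩ := adj j i h
      exact ⟨v, b, u, a, c.symm⟩

end Pool.Agent.H.MP_5651c1_co
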