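import Mathlib
import Pool.Agent.H.MP_5651c1_co.A

namespace Pool.Agent.H.MP_5651c1_co

open Finset

variable {V : Type} [Fintype V] [DecidableEq V]

theorem fibre {I : Type} [Fintype I] [DecidableEq I] (κ : Fin 4 → I) (hκ : Function.Injective κ)
    (B : Finset (Fin 4 → V)) :
    (univ.filter fun ψ : I → V => ψ ∘ κ ∈ B).card * Fintype.card V ^ 4 ≤
      Fintype.card V ^ Fintype.card I * B.card := by
  have h := card_le_card_of_injOn (s := (univ.filter fun ψ : I → V => ψ ∘ κ ∈ B) ×ˢ
    (univ : Finset (Fin 4 → V))) (t := (univ : Finset (I → V)) ×ˢ B)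
    (fun p => (Function.extend κ p.2 p.1, p.1 ∘ κ)) (fun p hp => by
      simp only [coe_product, Set.mem_prod, mem_coe, mem_filter, mem_univ, true_and] at hp ⊢
      exact hp.1) (by
      rintro ⟨ψ, φ⟩ - ⟨ψ', φ'⟩ - h
      obtain ⟨h1, h2⟩ := Prod.mk.inj h
      refine Prod.ext (funext fun i => ?_) (funext fun j => ?_)
      · by_cases hi : ∃ j, κ j = i
        · obtain ⟨j, rfl⟩ := hi
          exact congrFun h2 j
        · have := congrFun h1 i
          rwa [Function.extend_apply' _ _ _ hi, Function.extend_apply' _ _ _ hi] at this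
      · have := congrFun h1 (κ j)
        rwa [hκ.extend_apply, hκ.extend_apply] at this)
  simpa [card_product] using h

theorem avoid (I : Type) [Fintype I] [DecidableEq I] (B : Finset (Fin 4 → V))
    (hV : 0 < Fintype.card V) (h : Fintype.card I ^ 4 * B.card < Fintype.card V ^ 4) :
    ∃ ψ : I → V, ∀ κ : Fin 4 → I, Function.Injective κ → ψ ∘ κ ∉ B := by
  classical
  by_contra hc
  push Not at hc
  have h1 : (univ : Finset (I → V)) ⊆ (univ.filter fun κ : Fin 4 → I => Function.Injective κ).biUnion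
      fun κ => univ.filter fun ψ : I → V => ψ ∘ κ ∈ B := by
    intro ψ _
    obtain ⟨κ, a, b⟩ := hc ψ
    exact mem_biUnion.mpr ⟨κ, by simpa using a, by simpa using b⟩
  have h2 := (card_le_card h1).trans card_biUnion_le
  have h3 := Nat.mul_le_mul_right (Fintype.card V ^ 4) h2
  rw [sum_mul] at h3
  have h4 := h3.trans (sum_le_card_nsmul _ _ _ fun κ hκ => fibre κ (mem_filter.mp hκ).2 B)
  have h5 : (univ.filter fun κ : Fin 4 → I => Function.Injective κ).card ≤ Fintype.card I ^ 4 := by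
    simpa using card_filter_le (univ : Finset (Fin 4 → I)) fun κ => Function.Injective κ
  rw [card_univ, Fintype.card_fun, smul_eq_mul] at h4
  have h6 : 0 < Fintype.card V ^ Fintype.card I := by positivity
  have h7 := h4.trans (Nat.mul_le_mul_right _ h5)
  rw [mul_left_comm] at h7
  exact absurd (Nat.le_of_mul_le_mul_left h7 h6) (not_le.mpr h)

variable (G : SimpleGraph V)

def PP : Prop := ∀ (k : ℕ) (s r : Fin k → V), Function.Injective (Sum.elim s r) →
  ∃ p : (i : Fin k) → G.Walk (s i) (r i),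
    (∀ i, (p i).IsPath) ∧ ∀ i j, i ≠ j → ∀ e ∈ (p i).edges, e ∉ (p j).edges

noncomputable def cl (p : V × V) : ℕ × Bool :=
  ((Fintype.equivFin V p.1 : ℕ) + (Fintype.equivFin V p.2 : ℕ),
    decide ((Fintype.equivFin V p.1 : ℕ) < Fintype.equivFin V p.2))

omit [Fintype V] in
theorem conn (h : PP G) (u v : V) : Nonempty (G.Walk u v) := by
  by_cases e : u = v
  · exact ⟨e ▸ .nil⟩
  obtain ⟨p, -⟩ := h 1 (fun _ => u) (fun _ => v) (by
    rintro (i | i) (j | j) h
    · rw [Subsingleton.elim i j]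
    · exact absurd h e
    · exact absurd h.symm e
    · rw [Subsingleton.elim i j])
  exact ⟨p 0⟩

theorem route (h : PP G) : ∃ W : ∀ u v, G.Walk u v, ∀ p q : V × V, p.1 ≠ p.2 → q.1 ≠ q.2 →
    cl p = cl q → p ≠ q → ∀ e ∈ (W p.1 p.2).edges, e ∉ (W q.1 q.2).edges := by
  have key : ∀ c : ℕ × Bool, ∃ W : ∀ u v, G.Walk u v, ∀ p q : V × V, p.1 ≠ p.2 → q.1 ≠ q.2 →
      cl p = c → cl q = c → p ≠ q → ∀ e ∈ (W p.1 p.2).edges, e ∉ (W q.1 q.2).edges := by
    intro c
    let M : Finset (V × V) := univ.filter fun p => p.1 ≠ p.2 ∧ cl p = c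
    let e := M.equivFin
    have inj : ∀ a b : V, (Fintype.equivFin V a : ℕ) = Fintype.equivFin V b → a = b :=
      fun a b h => (Fintype.equivFin V).injective (Fin.ext h)
    have hM : ∀ p q : M, (p.1.1 = q.1.1 → p = q) ∧ (p.1.2 = q.1.2 → p = q) ∧ p.1.1 ≠ q.1.2 := by
      rintro ⟨⟨a, b⟩, hp⟩ ⟨⟨a', b'⟩, hq⟩
      obtain ⟨h1, h2⟩ := (mem_filter.mp hp).2
      obtain ⟨h3, h4⟩ := (mem_filter.mp hq).2
      obtain ⟨h5, h6⟩ := Prod.mk.inj (h2.trans h4.symm)
      simp only [decide_eq_decide] at h5 h6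
      have h7 := mt (inj a b) h1
      refine ⟨?_, ?_, ?_⟩
      · rintro (rfl : a = a')
        obtain rfl : b = b' := inj _ _ (by omega)
        rfl
      · rintro (rfl : b = b')
        obtain rfl : a = a' := inj _ _ (by omega)
        rfl
      · rintro (rfl : a = b')
        omega
    obtain ⟨p, -, hp⟩ := h _ (fun i => (e.symm i).1.1) (fun i => (e.symm i).1.2) (by
      rintro (i | i) (j | j) h
      · rw [e.symm.injective ((hM _ _).1 h)]
      · exact absurd h (hM _ _).2.2
      · exact absurd h.symm (hM _ _).2.2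
      · rw [e.symm.injective ((hM _ _).2.1 h)])
    have : ∀ u v, ∃ w : G.Walk u v, ∀ h : (u, v) ∈ M, w.edges = (p (e ⟨_, h⟩)).edges := by
      intro u v
      by_cases hm : (u, v) ∈ M
      · exact ⟨(p (e ⟨_, hm⟩)).copy (by simp) (by simp), fun _ => by simp⟩
      · obtain ⟨w⟩ := conn G h u v
        exact ⟨w, fun h => absurd h hm⟩
    choose W hW using this
    refine ⟨W, fun a b h1 h2 h3 h4 h5 => ?_⟩
    rw [hW a.1 a.2 (mem_filter.mpr ⟨mem_univ _, h1, h3⟩),
      hW b.1 b.2 (mem_filter.mpr ⟨mem_univ _, h2, h4⟩)]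
    exact hp _ _ fun h => h5 (congrArg Subtype.val (e.injective h))
  choose W hW using key
  refine ⟨fun u v => W (cl (u, v)) u v, fun p q h1 h2 h3 h4 => ?_⟩
  have := hW (cl p) p q h1 h2 rfl h3.symm h4
  simp only [Prod.mk.eta, ← h3]
  exact this

theorem load [DecidableRel G.Adj] (W : ∀ u v, G.Walk u v) (hW : ∀ p q : V × V, p.1 ≠ p.2 →
    q.1 ≠ q.2 → cl p = cl q → p ≠ q → ∀ e ∈ (W p.1 p.2).edges, e ∉ (W q.1 q.2).edges) (x : V) :
    (univ.filter fun p : V × V => x ∈ (W p.1 p.2).support).card ≤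
      4 * Fintype.card V * G.degree x + Fintype.card V := by
  have hy : ∀ p : V × V, ∃ y, p.1 ≠ p.2 → x ∈ (W p.1 p.2).support → s(x, y) ∈ (W p.1 p.2).edges := by
    intro p
    by_cases h : p.1 ≠ p.2 ∧ x ∈ (W p.1 p.2).support
    · obtain ⟨e, a, b⟩ := (SimpleGraph.Walk.mem_support_iff_exists_mem_edges_of_not_nil
        (SimpleGraph.Walk.not_nil_of_ne h.1)).mp h.2
      exact ⟨Sym2.Mem.other b, fun _ _ => by rwa [Sym2.other_spec]⟩
    · exact ⟨x, fun a b => absurd ⟨a, b⟩ h⟩
  choose y hy using hy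
  have h1 := card_le_card_of_injOn
    (s := univ.filter fun p : V × V => p.1 ≠ p.2 ∧ x ∈ (W p.1 p.2).support)
    (t := (range (2 * Fintype.card V) ×ˢ (univ : Finset Bool)) ×ˢ G.neighborFinset x)
    (fun p => (cl p, y p)) (fun p hp => by
      obtain ⟨a, b⟩ := (mem_filter.mp hp).2
      have := (Fintype.equivFin V p.1).2
      have := (Fintype.equivFin V p.2).2
      simp only [coe_product, Set.mem_prod, mem_coe, mem_range, mem_univ, and_true,
        SimpleGraph.mem_neighborFinset]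
      exact ⟨by unfold cl; omega, (W p.1 p.2).adj_of_mem_edges (hy p a b)⟩) (by
      intro p hp q hq h
      obtain ⟨a, b⟩ := (mem_filter.mp hp).2
      obtain ⟨a', b'⟩ := (mem_filter.mp hq).2
      obtain ⟨h1, h2⟩ := Prod.mk.inj h
      by_contra ne
      exact hW p q a a' h1 ne _ (hy p a b) (h2 ▸ hy q a' b'))
  have h2 : (univ.filter fun p : V × V => x ∈ (W p.1 p.2).support) ⊆
      (univ.filter fun p : V × V => p.1 ≠ p.2 ∧ x ∈ (W p.1 p.2).support) ∪ univ.diag := by
    intro p hp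
    simp only [mem_union, mem_filter, mem_univ, true_and, mem_diag] at hp ⊢
    tauto
  have h3 := (card_le_card h2).trans (card_union_le _ _)
  simp only [card_product, card_range, card_univ, Fintype.card_bool,
    SimpleGraph.card_neighborFinset_eq_degree, diag_card] at h1 h3
  nlinarith

end Pool.Agent.H.MP_5651c1_co
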